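import Pool.Agent.Helper16.Knotoid.Top

set_option autoImplicit false

namespace Pool.Agent.Helper16.RetiredSmallGenus

open Pool.Agent.Helper16.Knotoid

/-- Let `D` be a knotoid diagram in `S²` with `n` crossings and `f = 1`. The state `D.sign` is the
Seifert state (all smoothings respect the orientation), so the canonical genus `g` of `D` satisfies
`2 g = n + 1 - D.comps D.sign`. Assume that `g ≤ 1`, or that at most one crossing of `D` is
positive, or at most one is negative, or that `2 k ≤ g`, where `k` is the number of crossings of one
of the two signs. Then `D` is reduced to the trivial diagram by Reidemeister moves of types I and II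
removing crossings, or the tail and the head are in the same region of `D`, so that the knotoid is
of knot type. -/
theorem result {n : ℕ} (D : GaussDiagram n) (hD : D.Planar) (hf : D.normalizedBracket = 1)
    (h : n + 1 ≤ D.comps D.sign + 2 ∨
      (∃ b, 4 * (Finset.univ.filter fun c => D.sign c = b).card + D.comps D.sign ≤ n + 1) ∨
      ∃ b, (Finset.univ.filter fun c => D.sign c = b).card ≤ 1) :
    R12Trivial D.sign D.code ∨ D.tailRegion = D.headRegion :=
  D.small_genus hD hf h

end Pool.Agent.Helper16.RetiredSmallGenus
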