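import Pool.Agent.Helper16.Jones.Main

set_option autoImplicit false

namespace Pool.Agent.Results.MP_42db45_gt.SparseStates

open LaurentPolynomial Pool.Agent.Helper16.Jones

/-- Sparse Kauffman states: the extreme coefficient of the bracket, and detection of the trivial
knot by the f-polynomial. -/
theorem result {n : ℕ} (D : KnotDiagram n) (hD : D.Planar) :
    (∀ s : Fin n → Bool, D.Sparse true s →
      (∀ j : ℤ, (n : ℤ) + 2 * D.circles s - 2 - 6 * KnotDiagram.num s false Finset.univ < j →
        D.bracket.coeff j = 0) ∧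
      D.bracket.coeff ((n : ℤ) + 2 * D.circles s - 2 - 6 * KnotDiagram.num s false Finset.univ) =
        (-1) ^ (D.circles s - 1)) ∧
    (∀ s : Fin n → Bool, D.Sparse false s →
      (∀ j : ℤ, j < -((n : ℤ) + 2 * D.circles s - 2 - 6 * KnotDiagram.num s true Finset.univ) →
        D.bracket.coeff j = 0) ∧
      D.bracket.coeff
          (-((n : ℤ) + 2 * D.circles s - 2 - 6 * KnotDiagram.num s true Finset.univ)) =
        (-1) ^ (D.circles s - 1)) ∧
    (D.fPoly = 1 →
      ((∃ s t : Fin n → Bool, D.Sparse true s ∧ D.Sparse false t) ∨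
        (∃ X : Bool, D.Sparse X D.sign) ∨
        (∃ (X : Bool) (s : Fin n → Bool), D.StrictlySparse X s)) →
      R1Trivial D.word) := by
  refine ⟨fun s h => KnotDiagram.coeff_true hD h, fun s h => KnotDiagram.coeff_false hD h, ?_⟩
  rintro hf (⟨s, t, hs, ht⟩ | ⟨X, hX⟩ | ⟨X, s, hs⟩)
  · exact KnotDiagram.two_sided hD hf hs ht
  · exact KnotDiagram.seifert hD hf X hX
  · exact KnotDiagram.strict hD hf X hs

end Pool.Agent.Results.MP_42db45_gt.SparseStates
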