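import Pool.Agent.Helper16.Jones.UnbMain

set_option autoImplicit false

namespace Pool.Agent.Helper16.RetiredUnbalancedStates

open LaurentPolynomial Pool.Agent.Helper16.Jones

/-- Unbalanced Kauffman states: the f-polynomial detects the trivial knot on the diagrams whose
Seifert state is unbalanced, or which have a strictly unbalanced state, or which have an `A`-sparse
and a `B`-sparse state. -/
theorem result {n : ℕ} (D : KnotDiagram n) (hD : D.Planar) (hf : D.fPoly = 1)
    (h : D.Unbalanced D.sign ∨ (∃ s : Fin n → Bool, D.StrictlyUnbalanced s) ∨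
      (∃ s t : Fin n → Bool, D.Sparse true s ∧ D.Sparse false t)) :
    R1Trivial D.word := by
  rcases h with h | ⟨s, hs⟩ | ⟨s, t, hs, ht⟩
  · exact KnotDiagram.unb_seifert hD hf h
  · exact KnotDiagram.unb_strict hD hf hs
  · exact KnotDiagram.two_sided hD hf hs ht

end Pool.Agent.Helper16.RetiredUnbalancedStates
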